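import Mathlib

namespace Pool.Agent.H.MP_b9ebd9_co

open SimpleGraph Finset

def prs : List (ℕ × ℕ) := [(0, 1), (1, 2), (2, 3), (3, 4), (0, 4), (1, 5), (2, 6), (3, 7), (4, 8), (0, 11), (6, 9), (5, 7), (6, 8), (7, 10), (5, 8), (9, 11), (10, 11), (9, 10)]

def adj (u v : Fin 12) : Bool := prs.contains (u.val, v.val) || prs.contains (v.val, u.val)

def G : SimpleGraph (Fin 12) := SimpleGraph.fromRel (fun u v => adj u v = true)

instance : DecidableRel G.Adj := fun u v =>
  decidable_of_iff (u ≠ v ∧ (adj u v = true ∨ adj v u = true)) 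
    (SimpleGraph.fromRel_adj (fun u v => adj u v = true) u v).symm

def es : List (Sym2 (Fin 12)) := [s(0, 1), s(1, 2), s(2, 3), s(3, 4), s(0, 4), s(1, 5), s(2, 6), s(3, 7), s(4, 8), s(0, 11), s(6, 9), s(5, 7), s(6, 8), s(7, 10), s(5, 8), s(9, 11), s(10, 11), s(9, 10)]

def ms : List (Sym2 (Fin 12)) := [s(1, 5), s(2, 6), s(3, 7), s(4, 8), s(0, 11), s(9, 10)]

theorem adj_iff : ∀ u v, G.Adj u v ↔ s(u, v) ∈ es := by decide +kernel

theorem mem_es (e : Sym2 (Fin 12)) : e ∈ G.edgeSet ↔ e ∈ es := by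
  induction e using Sym2.ind with
  | _ u v => exact adj_iff u v

theorem es_nodup : es.Nodup := by decide +kernel

def step (S : Fin 12 → Bool) (l : List (Fin 12)) : List (Fin 12) :=
  (List.finRange 12).filter (fun v => !S v && (l.contains v || l.any (fun u => adj u v)))

def it (S : Fin 12 → Bool) (r : Fin 12) : ℕ → List (Fin 12)
  | 0 => [r]
  | n + 1 => step S (it S r n)

theorem adj_G : ∀ u v, adj u v = true → G.Adj u v := by decide +kernel

theorem it_sound (T : Finset (Fin 12)) (S : Fin 12 → Bool) (hS : ∀ v, S v = true ↔ v ∈ T)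
    (r : Fin 12) (hr : r ∉ T) (n : ℕ) : ∀ v ∈ it S r n, ∃ hv : v ∉ T,
      (G.induce ((T : Set (Fin 12))ᶜ)).Reachable ⟨r, hr⟩ ⟨v, hv⟩ := by
  induction n with
  | zero =>
    intro v hv
    simp only [it, List.mem_singleton] at hv
    subst hv
    exact ⟨hr, Reachable.refl _⟩
  | succ n ih =>
    intro v hv
    simp only [it, step, List.mem_filter, Bool.and_eq_true, Bool.not_eq_true', Bool.or_eq_true,
      List.contains_iff_mem, List.any_eq_true] at hv
    have hvT : v ∉ T := by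
      rw [← hS, hv.2.1]; simp
    rcases hv.2.2 with h | ⟨u, hu, huv⟩
    · exact ih v h
    · obtain ⟨hu', hr'⟩ := ih u hu
      exact ⟨hvT, hr'.trans (Adj.reachable (by simpa using adj_G u v huv))⟩

def chk (S : Fin 12 → Bool) : Bool :=
  (List.finRange 12).any fun r => !S r && (List.finRange 12).all fun v => S v || (it S r 8).contains v

theorem chk_sound (T : Finset (Fin 12)) (S : Fin 12 → Bool) (hS : ∀ v, S v = true ↔ v ∈ T)
    (h : chk S = true) : (G.induce ((T : Set (Fin 12))ᶜ)).Connected := by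
  simp only [chk, List.any_eq_true, Bool.and_eq_true, Bool.not_eq_true', List.all_eq_true,
    Bool.or_eq_true, List.contains_iff_mem] at h
  obtain ⟨r, -, hr, h⟩ := h
  have hrT : r ∉ T := by rw [← hS, hr]; simp
  have key : ∀ x : ((T : Set (Fin 12))ᶜ : Set (Fin 12)),
      (G.induce ((T : Set (Fin 12))ᶜ)).Reachable ⟨r, hrT⟩ x := by
    rintro ⟨x, hx⟩
    rcases h x (List.mem_finRange x) with h' | h'
    · exact absurd ((hS x).1 h') hx
    · exact (it_sound T S hS r hrT 8 x h').2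
  have : Nonempty ((T : Set (Fin 12))ᶜ : Set (Fin 12)) := ⟨⟨r, hrT⟩⟩
  exact ⟨fun a b => (key a).symm.trans (key b)⟩

theorem chk0 : chk (fun _ => false) = true := by decide +kernel
theorem chk2 : ((List.finRange 12).all fun a => (List.finRange 12).all fun b =>
    chk (fun v => v == a || v == b)) = true := by decide +kernel

theorem conn (T : Finset (Fin 12)) (h : T.card < 3) :
    (G.induce ((T : Set (Fin 12))ᶜ)).Connected := by
  have c2 := chk2
  simp only [List.all_eq_true] at c2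
  have h' : T.card = 0 ∨ T.card = 1 ∨ T.card = 2 := by omega
  rcases h' with h' | h' | h'
  · rw [card_eq_zero] at h'
    exact chk_sound T _ (by simp [h']) chk0
  · obtain ⟨a, rfl⟩ := card_eq_one.1 h'
    exact chk_sound _ _ (by simp) (c2 a (List.mem_finRange a) a (List.mem_finRange a))
  · obtain ⟨a, b, -, rfl⟩ := card_eq_two.1 h'
    exact chk_sound _ _ (by simp) (c2 a (List.mem_finRange a) b (List.mem_finRange b))

theorem even_walk {u v : Fin 12} (p : G.Walk u v) (x : Fin 12) :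
    Even (p.edges.countP fun e => x ∈ e) ↔ u ≠ v → x ≠ u ∧ x ≠ v := by
  induction p with
  | nil => simp
  | cons huv p ih =>
    simp only [List.countP_cons, Ne, Walk.edges_cons, Sym2.mem_iff]
    split_ifs with h
    · rw [decide_eq_true_eq] at h
      obtain (rfl | rfl) := h
      · rw [Nat.even_add_one, ih]
        simp only [huv.ne, imp_false, Ne, not_false_iff, true_and, not_forall,
          Classical.not_not, exists_prop, not_true, false_and,
          and_iff_right_iff_imp]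
        rintro rfl rfl
        exact G.loopless.irrefl _ huv
      · have := huv.ne; grind
    · grind

theorem cnt (L : List (Sym2 (Fin 12))) (hL : ∀ e ∈ L, e ∈ es) (p : Sym2 (Fin 12) → Prop)
    [DecidablePred p] :
    L.countP (fun e => p e) = (es.map (fun e => if p e then L.count e else 0)).sum := by
  rw [← List.sum_toFinset _ es_nodup, ← Finset.sum_filter_count_eq_countP, Finset.sum_filter]
  refine Finset.sum_subset (fun e he => by simpa using hL e (by simpa using he)) (fun e _ he => ?_)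
  have : e ∉ L := by simpa using he
  simp [List.count_eq_zero_of_not_mem this]

def Par (c : Sym2 (Fin 12) → ℕ) : Prop :=
    (c s(0, 1) + c s(0, 4) + c s(0, 11)) % 2 = 0 ∧
    (c s(0, 1) + c s(1, 2) + c s(1, 5)) % 2 = 0 ∧
    (c s(1, 2) + c s(2, 3) + c s(2, 6)) % 2 = 0 ∧
    (c s(2, 3) + c s(3, 4) + c s(3, 7)) % 2 = 0 ∧
    (c s(3, 4) + c s(0, 4) + c s(4, 8)) % 2 = 0 ∧
    (c s(1, 5) + c s(5, 7) + c s(5, 8)) % 2 = 0 ∧
    (c s(2, 6) + c s(6, 9) + c s(6, 8)) % 2 = 0 ∧
    (c s(3, 7) + c s(5, 7) + c s(7, 10)) % 2 = 0 ∧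
    (c s(4, 8) + c s(6, 8) + c s(5, 8)) % 2 = 0 ∧
    (c s(6, 9) + c s(9, 11) + c s(9, 10)) % 2 = 0 ∧
    (c s(7, 10) + c s(10, 11) + c s(9, 10)) % 2 = 0 ∧
    (c s(0, 11) + c s(9, 11) + c s(10, 11)) % 2 = 0

theorem par (L : List (Sym2 (Fin 12))) (hL : ∀ e ∈ L, e ∈ es)
    (h : ∀ x : Fin 12, Even (L.countP fun e => x ∈ e)) : Par (fun e => L.count e) := by
  have h' : ∀ x : Fin 12, (es.map (fun e => if x ∈ e then L.count e else 0)).sum % 2 = 0 := by
    intro x
    rw [← cnt L hL (fun e => x ∈ e)]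
    exact Nat.even_iff.1 (h x)
  refine ⟨?_, ?_, ?_, ?_, ?_, ?_, ?_, ?_, ?_, ?_, ?_, ?_⟩
  · have := h' 0
    simp [es] at this
    beta_reduce
    omega
  · have := h' 1
    simp [es] at this
    beta_reduce
    omega
  · have := h' 2
    simp [es] at this
    beta_reduce
    omega
  · have := h' 3
    simp [es] at this
    beta_reduce
    omega
  · have := h' 4
    simp [es] at this
    beta_reduce
    omega
  · have := h' 5
    simp [es] at this
    beta_reduce
    omega
  · have := h' 6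
    simp [es] at this
    beta_reduce
    omega
  · have := h' 7
    simp [es] at this
    beta_reduce
    omega
  · have := h' 8
    simp [es] at this
    beta_reduce
    omega
  · have := h' 9
    simp [es] at this
    beta_reduce
    omega
  · have := h' 10
    simp [es] at this
    beta_reduce
    omega
  · have := h' 11
    simp [es] at this
    beta_reduce
    omega

theorem low (c : Sym2 (Fin 12) → ℕ) (h : Par c) (hb : ∀ e ∈ es, 1 ≤ c e) :
    24 ≤ c s(0, 1) + c s(1, 2) + c s(2, 3) + c s(3, 4) + c s(0, 4) + c s(1, 5) + c s(2, 6) + c s(3, 7) + c s(4, 8) + c s(0, 11) + c s(6, 9) + c s(5, 7) + c s(6, 8) + c s(7, 10) + c s(5, 8) + c s(9, 11) + c s(10, 11) + c s(9, 10) := by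
  obtain ⟨h0, h1, h2, h3, h4, h5, h6, h7, h8, h9, h10, h11⟩ := h
  have b0 := hb s(0, 1) (by decide)
  have b1 := hb s(1, 2) (by decide)
  have b2 := hb s(2, 3) (by decide)
  have b3 := hb s(3, 4) (by decide)
  have b4 := hb s(0, 4) (by decide)
  have b5 := hb s(1, 5) (by decide)
  have b6 := hb s(2, 6) (by decide)
  have b7 := hb s(3, 7) (by decide)
  have b8 := hb s(4, 8) (by decide)
  have b9 := hb s(0, 11) (by decide)
  have b10 := hb s(6, 9) (by decide)
  have b11 := hb s(5, 7) (by decide)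
  have b12 := hb s(6, 8) (by decide)
  have b13 := hb s(7, 10) (by decide)
  have b14 := hb s(5, 8) (by decide)
  have b15 := hb s(9, 11) (by decide)
  have b16 := hb s(10, 11) (by decide)
  have b17 := hb s(9, 10) (by decide)
  have g0 : 4 ≤ c s(0, 1) + c s(0, 4) + c s(0, 11) := by omega
  have g1 : 4 ≤ c s(0, 1) + c s(1, 2) + c s(1, 5) := by omega
  have g2 : 4 ≤ c s(1, 2) + c s(2, 3) + c s(2, 6) := by omega
  have g3 : 4 ≤ c s(2, 3) + c s(3, 4) + c s(3, 7) := by omega
  have g4 : 4 ≤ c s(3, 4) + c s(0, 4) + c s(4, 8) := by omega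
  have g5 : 4 ≤ c s(1, 5) + c s(5, 7) + c s(5, 8) := by omega
  have g6 : 4 ≤ c s(2, 6) + c s(6, 9) + c s(6, 8) := by omega
  have g7 : 4 ≤ c s(3, 7) + c s(5, 7) + c s(7, 10) := by omega
  have g8 : 4 ≤ c s(4, 8) + c s(6, 8) + c s(5, 8) := by omega
  have g9 : 4 ≤ c s(6, 9) + c s(9, 11) + c s(9, 10) := by omega
  have g10 : 4 ≤ c s(7, 10) + c s(10, 11) + c s(9, 10) := by omega
  have g11 : 4 ≤ c s(0, 11) + c s(9, 11) + c s(10, 11) := by omega
  clear h0 h1 h2 h3 h4 h5 h6 h7 h8 h9 h10 h11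
  omega

theorem len (L : List (Sym2 (Fin 12))) (hL : ∀ e ∈ L, e ∈ es)
    (h : ∀ x : Fin 12, Even (L.countP fun e => x ∈ e)) (hc : ∀ e ∈ es, e ∈ L) : 24 ≤ L.length := by
  have h1 := low _ (par L hL h) (fun e he => List.count_pos_iff.2 (hc e he))
  have h2 := cnt L hL (fun _ => True)
  simp [es] at h2
  beta_reduce at h1
  omega

def A (c : Sym2 (Fin 12) → ℕ) : ℕ := 2 * (c s(0, 1) + c s(1, 2) + c s(2, 3) + c s(3, 4) + c s(0, 4) + c s(6, 9) + c s(5, 7) + c s(6, 8) + c s(7, 10) + c s(5, 8) + c s(9, 11) + c s(10, 11)) + c s(9, 10)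
def B (c : Sym2 (Fin 12) → ℕ) : ℕ := 2 * (c s(1, 5) + c s(2, 6) + c s(3, 7) + c s(4, 8) + c s(0, 11) + c s(9, 10)) + c s(0, 11)
def O (c : Sym2 (Fin 12) → ℕ) : ℕ := c s(0, 1) + c s(1, 2) + c s(2, 3) + c s(3, 4) + c s(0, 4)

theorem arith : ([0, 1].all fun x0 => [0, 1].all fun x4 => [0, 1].all fun x9 => (x0 + x4 + x9) % 2 != 0 ||
    [0, 1].all fun x1 => [0, 1].all fun x5 => (x0 + x1 + x5) % 2 != 0 ||
    [0, 1].all fun x2 => [0, 1].all fun x6 => (x1 + x2 + x6) % 2 != 0 ||
    [0, 1].all fun x3 => [0, 1].all fun x7 => (x2 + x3 + x7) % 2 != 0 ||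
    [0, 1].all fun x8 => (x3 + x4 + x8) % 2 != 0 ||
    [0, 1].all fun x11 => [0, 1].all fun x14 => (x5 + x11 + x14) % 2 != 0 ||
    [0, 1].all fun x10 => [0, 1].all fun x12 => (x6 + x10 + x12) % 2 != 0 ||
    [0, 1].all fun x13 => (x7 + x11 + x13) % 2 != 0 ||
    (x8 + x12 + x14) % 2 != 0 ||
    [0, 1].all fun x15 => [0, 1].all fun x17 => (x10 + x15 + x17) % 2 != 0 ||
    [0, 1].all fun x16 => (x13 + x16 + x17) % 2 != 0 ||
    (x9 + x15 + x16) % 2 != 0 ||
    decide (2 * (x5 + x6 + x7 + x8 + x9 + x17) + x9 + (x0 + x1 + x2 + x3 + x4) % 2 ≤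
      2 * (x0 + x1 + x2 + x3 + x4 + x10 + x11 + x12 + x13 + x14 + x15 + x16) + x17)) = true := by
  decide +kernel

theorem one (c : Sym2 (Fin 12) → ℕ) (h : Par c) (hb : ∀ e, c e ≤ 1) : B c + O c % 2 ≤ A c := by
  obtain ⟨h0, h1, h2, h3, h4, h5, h6, h7, h8, h9, h10, h11⟩ := h
  have hm : ∀ e, c e ∈ [0, 1] := by
    intro e
    have := hb e
    simp only [List.mem_cons, List.not_mem_nil, or_false]
    omega
  have h := arith
  simp only [List.all_eq_true, Bool.or_eq_true, bne_iff_ne, ne_eq, decide_eq_true_eq,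
    or_assoc] at h
  have k0 := (h (c s(0, 1)) (hm _) (c s(0, 4)) (hm _) (c s(0, 11)) (hm _)).resolve_left (not_not.2 h0)
  have k1 := (k0 (c s(1, 2)) (hm _) (c s(1, 5)) (hm _)).resolve_left (not_not.2 h1)
  have k2 := (k1 (c s(2, 3)) (hm _) (c s(2, 6)) (hm _)).resolve_left (not_not.2 h2)
  have k3 := (k2 (c s(3, 4)) (hm _) (c s(3, 7)) (hm _)).resolve_left (not_not.2 h3)
  have k4 := (k3 (c s(4, 8)) (hm _)).resolve_left (not_not.2 h4)
  have k5 := (k4 (c s(5, 7)) (hm _) (c s(5, 8)) (hm _)).resolve_left (not_not.2 h5)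
  have k6 := (k5 (c s(6, 9)) (hm _) (c s(6, 8)) (hm _)).resolve_left (not_not.2 h6)
  have k7 := (k6 (c s(7, 10)) (hm _)).resolve_left (not_not.2 h7)
  have k8 := (k7).resolve_left (not_not.2 h8)
  have k9 := (k8 (c s(9, 11)) (hm _) (c s(9, 10)) (hm _)).resolve_left (not_not.2 h9)
  have k10 := (k9 (c s(10, 11)) (hm _)).resolve_left (not_not.2 h10)
  have k11 := (k10).resolve_left (not_not.2 h11)
  exact k11

theorem fam (F : List (Σ v, G.Walk v v)) (hF : ∀ C ∈ F, C.2.IsCycle) :
    B (fun e => F.countP (fun C => decide (e ∈ C.2.edges))) +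
      O (fun e => F.countP (fun C => decide (e ∈ C.2.edges))) % 2 ≤
      A (fun e => F.countP (fun C => decide (e ∈ C.2.edges))) := by
  induction F with
  | nil => simp [A, B, O]
  | cons C F ih =>
    have ih' := ih (fun D hD => hF D (List.mem_cons_of_mem _ hD))
    have hC := hF C List.mem_cons_self
    have hn := hC.isTrail.edges_nodup
    have h1 := one (fun e => C.2.edges.count e)
      (par _ (fun e he => (mem_es e).1 (C.2.edges_subset_edgeSet he))
        (fun x => (even_walk C.2 x).2 (fun h => absurd rfl h)))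
      (fun e => List.nodup_iff_count_le_one.1 hn e)
    have e1 : ∀ e, (C :: F).countP (fun C => decide (e ∈ C.2.edges)) =
        F.countP (fun C => decide (e ∈ C.2.edges)) + C.2.edges.count e := by
      intro e
      rw [List.countP_cons]
      by_cases he : e ∈ C.2.edges
      · simp [he, List.count_eq_one_of_mem hn he]
      · simp [he, List.count_eq_zero_of_not_mem he]
    simp only [A, B, O, e1] at ih' h1 ⊢
    omega

def w (e : Sym2 (Fin 12)) : ℕ := if e ∈ ms then 2 else 1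

theorem not_cov : ¬ ∃ F : List (Σ v, G.Walk v v), (∀ C ∈ F, C.2.IsCycle) ∧
    ∀ e ∈ G.edgeSet, F.countP (fun C => decide (e ∈ C.2.edges)) = w e := by
  rintro ⟨F, hF, h⟩
  have h1 := fam F hF
  have h2 : ∀ e ∈ es, F.countP (fun C => decide (e ∈ C.2.edges)) = w e :=
    fun e he => h e ((mem_es e).2 he)
  simp only [A, B, O] at h1
  rw [h2 s(0, 1) (by decide), h2 s(1, 2) (by decide), h2 s(2, 3) (by decide), h2 s(3, 4) (by decide), h2 s(0, 4) (by decide), h2 s(1, 5) (by decide), h2 s(2, 6) (by decide), h2 s(3, 7) (by decide), h2 s(4, 8) (by decide), h2 s(0, 11) (by decide), h2 s(6, 9) (by decide), h2 s(5, 7) (by decide), h2 s(6, 8) (by decide), h2 s(7, 10) (by decide), h2 s(5, 8) (by decide), h2 s(9, 11) (by decide), h2 s(10, 11) (by decide), h2 s(9, 10) (by decide)] at h1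
  revert h1
  decide

theorem w12 (e : Sym2 (Fin 12)) : w e = 1 ∨ w e = 2 := by
  unfold w; split_ifs <;> simp

open Classical in
theorem cut (S : Finset (Fin 12)) : Even (∑ e ∈ univ.filter
    (fun e : Sym2 (Fin 12) => e ∈ G.edgeSet ∧ ∃ u ∈ S, ∃ v ∉ S, e = s(u, v)), w e) := by
  obtain ⟨a, ha⟩ : ∃ a : Fin 12 → ℕ, ∀ u, a u = if u ∈ S then 1 else 0 := ⟨_, fun _ => rfl⟩
  have e1 : ∑ e ∈ univ.filter
      (fun e : Sym2 (Fin 12) => e ∈ G.edgeSet ∧ ∃ u ∈ S, ∃ v ∉ S, e = s(u, v)), w e =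
      (es.map (fun e => if (∃ u ∈ S, ∃ v ∉ S, e = s(u, v)) then w e else 0)).sum := by
    rw [← List.sum_toFinset _ es_nodup, ← Finset.sum_filter]
    refine Finset.sum_congr ?_ (fun _ _ => rfl)
    ext e
    simp [mem_es]
  have e2 : ∀ x y : Fin 12, (if (∃ u ∈ S, ∃ v ∉ S, s(x, y) = s(u, v)) then w s(x, y) else 0) =
      w s(x, y) * ((a x + a y) % 2) := by
    intro x y
    rw [ha, ha]
    by_cases hx : x ∈ S <;> by_cases hy : y ∈ S
    · rw [if_neg]
      · simp [hx, hy]
      · rintro ⟨u, hu, v, hv, h⟩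
        rcases Sym2.eq_iff.1 h with ⟨-, rfl⟩ | ⟨rfl, -⟩ <;> contradiction
    · rw [if_pos ⟨x, hx, y, hy, rfl⟩]; simp [hx, hy]
    · rw [if_pos ⟨y, hy, x, hx, Sym2.eq_swap⟩]; simp [hx, hy]
    · rw [if_neg]
      · simp [hx, hy]
      · rintro ⟨u, hu, v, hv, h⟩
        rcases Sym2.eq_iff.1 h with ⟨rfl, -⟩ | ⟨-, rfl⟩ <;> contradiction
  rw [e1, Nat.even_iff]
  simp only [es, List.map_cons, List.map_nil, List.sum_cons, List.sum_nil, e2]
  rw [show w s(0, 1) = 1 by decide, show w s(1, 2) = 1 by decide, show w s(2, 3) = 1 by decide, show w s(3, 4) = 1 by decide, show w s(0, 4) = 1 by decide, show w s(1, 5) = 2 by decide, show w s(2, 6) = 2 by decide, show w s(3, 7) = 2 by decide, show w s(4, 8) = 2 by decide, show w s(0, 11) = 2 by decide, show w s(6, 9) = 1 by decide, show w s(5, 7) = 1 by decide, show w s(6, 8) = 1 by decide, show w s(7, 10) = 1 by decide, show w s(5, 8) = 1 by decide, show w s(9, 11) = 1 by decide, show w s(10, 11) = 1 by decide, show w s(9,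 10) = 2 by decide]
  omega

def tour : G.Walk 0 0 := (Walk.cons (show G.Adj 0 11 by decide) (Walk.cons (show G.Adj 11 10 by decide) (Walk.cons (show G.Adj 10 7 by decide) (Walk.cons (show G.Adj 7 10 by decide) (Walk.cons (show G.Adj 10 9 by decide) (Walk.cons (show G.Adj 9 11 by decide) (Walk.cons (show G.Adj 11 0 by decide) (Walk.cons (show G.Adj 0 4 by decide) (Walk.cons (show G.Adj 4 3 by decide) (Walk.cons (show G.Adj 3 4 by decide) (Walk.cons (show G.Adj 4 8 by decide) (Walk.cons (show G.Adj 8 5 by decide) (Walk.cons (show G.Adj 5 8 by decide) (Walk.cons (show G.Adj 8 6 by decide) (Walk.cons (show G.Adj 6 9 by decide) (Walk.cons (show G.Adj 9 6 by decide) (Walk.cons (show G.Adj 6 2 by decide) (Walk.cons (show G.Adj 2 3 by decide) (Walk.cons (show G.Adj 3 7 by decide) (Walk.cons (show G.Adj 7 5 by decide) (Walk.cons (show G.Adj 5 1 by decide) (Walk.cons (show G.Adj 1 2 by decide) (Walk.cons (show G.Adj 2 1 by decide) (Walk.cons (show G.Adj 1 0 by decide)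 Walk.nil))))))))))))))))))))))))

def cov : List (Σ v, G.Walk v v) := [⟨0, (Walk.cons (show G.Adj 0 11 by decide) (Walk.cons (show G.Adj 11 9 by decide) (Walk.cons (show G.Adj 9 6 by decide) (Walk.cons (show G.Adj 6 2 by decide) (Walk.cons (show G.Adj 2 1 by decide) (Walk.cons (show G.Adj 1 0 by decide) Walk.nil))))))⟩,
  ⟨0, (Walk.cons (show G.Adj 0 11 by decide) (Walk.cons (show G.Adj 11 10 by decide) (Walk.cons (show G.Adj 10 7 by decide) (Walk.cons (show G.Adj 7 3 by decide) (Walk.cons (show G.Adj 3 4 by decide) (Walk.cons (show G.Adj 4 0 by decide) Walk.nil))))))⟩,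
  ⟨1, (Walk.cons (show G.Adj 1 5 by decide) (Walk.cons (show G.Adj 5 8 by decide) (Walk.cons (show G.Adj 8 4 by decide) (Walk.cons (show G.Adj 4 3 by decide) (Walk.cons (show G.Adj 3 2 by decide) (Walk.cons (show G.Adj 2 1 by decide) Walk.nil))))))⟩,
  ⟨5, (Walk.cons (show G.Adj 5 8 by decide) (Walk.cons (show G.Adj 8 6 by decide) (Walk.cons (show G.Adj 6 9 by decide) (Walk.cons (show G.Adj 9 10 by decide) (Walk.cons (show G.Adj 10 7 by decide) (Walk.cons (show G.Adj 7 5 by decide) Walk.nil))))))⟩]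

theorem cpp : IsLeast {n | ∃ (v : Fin 12) (p : G.Walk v v),
    (∀ e ∈ G.edgeSet, e ∈ p.edges) ∧ p.length = n} 24 := by
  constructor
  · refine ⟨0, tour, fun e he => ?_, rfl⟩
    have : ∀ e ∈ es, e ∈ tour.edges := by decide +kernel
    exact this e ((mem_es e).1 he)
  · rintro n ⟨v, p, h, rfl⟩
    rw [← Walk.length_edges]
    exact len _ (fun e he => (mem_es e).1 (p.edges_subset_edgeSet he))
      (fun x => (even_walk p x).2 (fun h => absurd rfl h)) (fun e he => h e ((mem_es e).2 he))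

theorem scc : IsLeast {n | ∃ F : List (Σ v, G.Walk v v), (∀ C ∈ F, C.2.IsCycle) ∧
    (∀ e ∈ G.edgeSet, ∃ C ∈ F, e ∈ C.2.edges) ∧ (F.map (fun C => C.2.length)).sum = n} 24 := by
  constructor
  · refine ⟨cov, ?_, fun e he => ?_, rfl⟩
    · intro C hC
      simp only [cov, List.mem_cons, List.not_mem_nil, or_false] at hC
      rcases hC with rfl | rfl | rfl | rfl <;>
        exact ⟨⟨⟨by decide⟩, by simp⟩, by decide⟩
    · have : ∀ e ∈ es, ∃ C ∈ cov, e ∈ C.2.edges := by decide +kernel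
      exact this e ((mem_es e).1 he)
  · rintro n ⟨F, -, h, rfl⟩
    have e1 : (F.map (fun C => C.2.length)).sum = (F.flatMap (fun C => C.2.edges)).length := by
      simp [List.length_flatMap]
    rw [e1]
    refine len _ (fun e he => ?_) (fun x => ?_) (fun e he => ?_)
    · obtain ⟨C, -, hC⟩ := List.mem_flatMap.1 he
      exact (mem_es e).1 (C.2.edges_subset_edgeSet hC)
    · clear h e1
      induction F with
      | nil => simp
      | cons C F ih =>
        rw [List.flatMap_cons, List.countP_append]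
        exact ((even_walk C.2 x).2 (fun h => absurd rfl h)).add ih
    · exact List.mem_flatMap.2 (h e ((mem_es e).2 he))

end Pool.Agent.H.MP_b9ebd9_co
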